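import Pool.Agent.helper82.LEQ.Spec

/-!
# Row lq:PRA: projections of a direct product
-/

set_option autoImplicit false

namespace LEQ

open scoped BigOperators
open QS (Lef EAb)

section

variable {G : Type} [Group G]

theorem PRA_symm {A B : Subgroup G} (h : Dir A B) : Dir B A :=
  ⟨fun b hb a ha => (h.1 a ha b hb).symm, by rw [inf_comm]; exact h.2⟩

theorem PRA_mono {A B A' B' : Subgroup G} (h : Dir A B) (hA : A' ≤ A) (hB : B' ≤ B) :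
    Dir A' B' := by
  refine ⟨fun a ha b hb => h.1 a (hA ha) b (hB hb), ?_⟩
  rw [eq_bot_iff, ← h.2]
  exact inf_le_inf hA hB

theorem PRA_mul4 {A B : Subgroup G} (h : Dir A B) {a a' b b' : G} (ha' : a' ∈ A) (hb : b ∈ B) :
    (a * b) * (a' * b') = (a * a') * (b * b') := by
  rw [mul_assoc, ← mul_assoc b, ← h.1 a' ha' b hb, mul_assoc, mul_assoc]

theorem PRA_inv {A B : Subgroup G} (h : Dir A B) {a b : G} (ha : a ∈ A) (hb : b ∈ B) :
    (a * b)⁻¹ = a⁻¹ * b⁻¹ := by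
  rw [mul_inv_rev, ← h.1 a⁻¹ (inv_mem ha) b⁻¹ (inv_mem hb)]

theorem PRA_mem {A B : Subgroup G} (h : Dir A B) {x : G} :
    x ∈ A ⊔ B ↔ ∃ a ∈ A, ∃ b ∈ B, x = a * b := by
  constructor
  · intro hx
    let K : Subgroup G :=
      { carrier := {x | ∃ a ∈ A, ∃ b ∈ B, x = a * b}
        one_mem' := ⟨1, one_mem _, 1, one_mem _, (mul_one 1).symm⟩
        mul_mem' := by
          rintro _ _ ⟨a, ha, b, hb, rfl⟩ ⟨a', ha', b', hb', rfl⟩
          exact ⟨a * a', mul_mem ha ha', b * b', mul_mem hb hb', PRA_mul4 h ha' hb⟩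
        inv_mem' := by
          rintro _ ⟨a, ha, b, hb, rfl⟩
          exact ⟨a⁻¹, inv_mem ha, b⁻¹, inv_mem hb, PRA_inv h ha hb⟩ }
    have h1 : A ⊔ B ≤ K := sup_le (fun a ha => ⟨a, ha, 1, one_mem _, (mul_one a).symm⟩)
      (fun b hb => ⟨1, one_mem _, b, hb, (one_mul b).symm⟩)
    exact h1 hx
  · rintro ⟨a, ha, b, hb, rfl⟩
    exact mul_mem (Subgroup.mem_sup_left ha) (Subgroup.mem_sup_right hb)

theorem PRA_uniq {A B : Subgroup G} (h : Dir A B) {a a' b b' : G} (ha : a ∈ A) (ha' : a' ∈ A)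
    (hb : b ∈ B) (hb' : b' ∈ B) (hab : a * b = a' * b') : a = a' ∧ b = b' := by
  have h1 : a'⁻¹ * a = b' * b⁻¹ := by
    rw [inv_mul_eq_iff_eq_mul, ← mul_assoc, eq_mul_inv_iff_mul_eq]
    exact hab
  have h2 : a'⁻¹ * a ∈ A ⊓ B :=
    Subgroup.mem_inf.2 ⟨mul_mem (inv_mem ha') ha, by rw [h1]; exact mul_mem hb' (inv_mem hb)⟩
  rw [h.2, Subgroup.mem_bot] at h2
  rw [h2] at h1
  exact ⟨(inv_mul_eq_one.1 h2).symm, (mul_inv_eq_one.1 h1.symm).symm⟩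

theorem PRA_proj {A B E : Subgroup G} (h : Dir A B) (hE : E ≤ A ⊔ B) {x : G} :
    x ∈ (E ⊔ B) ⊓ A ↔ x ∈ A ∧ ∃ b ∈ B, x * b ∈ E := by
  constructor
  · rintro ⟨hx, hxA⟩
    refine ⟨hxA, ?_⟩
    let K : Subgroup G :=
      { carrier := {y | ∃ a ∈ A, ∃ b ∈ B, y = a * b ∧ ∃ b' ∈ B, a * b' ∈ E}
        one_mem' := ⟨1, one_mem _, 1, one_mem _, (mul_one 1).symm, 1, one_mem _, by
          rw [mul_one]; exact one_mem _⟩
        mul_mem' := by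
          rintro _ _ ⟨a, ha, b, hb, rfl, c, hc, hcE⟩ ⟨a', ha', b', hb', rfl, c', hc', hcE'⟩
          refine ⟨a * a', mul_mem ha ha', b * b', mul_mem hb hb', PRA_mul4 h ha' hb,
            c * c', mul_mem hc hc', ?_⟩
          rw [← PRA_mul4 h ha' hc]
          exact mul_mem hcE hcE'
        inv_mem' := by
          rintro _ ⟨a, ha, b, hb, rfl, c, hc, hcE⟩
          refine ⟨a⁻¹, inv_mem ha, b⁻¹, inv_mem hb, PRA_inv h ha hb, c⁻¹, inv_mem hc, ?_⟩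
          rw [← PRA_inv h ha hc]
          exact inv_mem hcE }
    have h1 : E ⊔ B ≤ K := by
      refine sup_le (fun y hy => ?_) (fun b hb => ?_)
      · obtain ⟨a, ha, b, hb, hab⟩ := (PRA_mem h).1 (hE hy)
        exact ⟨a, ha, b, hb, hab, b, hb, by rw [← hab]; exact hy⟩
      · exact ⟨1, one_mem _, b, hb, (one_mul b).symm, 1, one_mem _, by
          rw [mul_one]; exact one_mem _⟩
    obtain ⟨a, ha, b, hb, hab, b', hb', hbE⟩ := h1 hx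
    have h2 := (PRA_uniq h hxA ha (one_mem _) hb (by rw [mul_one]; exact hab)).1
    exact ⟨b', hb', by rw [h2]; exact hbE⟩
  · rintro ⟨hxA, b, hb, hbE⟩
    refine ⟨?_, hxA⟩
    have h1 : x = (x * b) * b⁻¹ := by rw [mul_inv_cancel_right]
    rw [h1]
    exact mul_mem (Subgroup.mem_sup_left hbE) (Subgroup.mem_sup_right (inv_mem hb))

theorem PRA_eab {A B E : Subgroup G} {p : ℕ} (h : Dir A B) (hE : E ≤ A ⊔ B) (hp : EAb p E) :
    EAb p ((E ⊔ B) ⊓ A) := by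
  constructor
  · intro x hx y hy
    rw [PRA_proj h hE] at hx hy
    obtain ⟨hxA, b, hb, hbE⟩ := hx
    obtain ⟨hyA, c, hc, hcE⟩ := hy
    have h1 := hp.1 _ hbE _ hcE
    rw [PRA_mul4 h hyA hb, PRA_mul4 h hxA hc] at h1
    exact (PRA_uniq h (mul_mem hxA hyA) (mul_mem hyA hxA) (mul_mem hb hc) (mul_mem hc hb) h1).1
  · intro x hx
    rw [PRA_proj h hE] at hx
    obtain ⟨hxA, b, hb, hbE⟩ := hx
    have h1 := hp.2 _ hbE
    have h2 : Commute x b := h.1 x hxA b hb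
    rw [h2.mul_pow] at h1
    exact (PRA_uniq h (pow_mem hxA p) (one_mem _) (pow_mem hb p) (one_mem _)
      (by rw [h1, mul_one])).1

theorem PRA_conj {A B : Subgroup G} (h : Dir A B) {s t a b : G} (hs : s ∈ A) (ht : t ∈ B)
    (ha : a ∈ A) (hb : b ∈ B) :
    (s * t) * (a * b) * (s * t)⁻¹ = (s * a * s⁻¹) * (t * b * t⁻¹) := by
  rw [PRA_mul4 h ha ht, PRA_inv h hs ht, PRA_mul4 h (inv_mem hs) (mul_mem ht hb)]

theorem PRA_conj' {A : Subgroup G} {s a : G} (hs : s ∈ A) (ha : a ∈ A) : s * a * s⁻¹ ∈ A :=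
  mul_mem (mul_mem hs ha) (inv_mem hs)

theorem PRA_stb {A B E : Subgroup G} (h : Dir A B) (hE : E ≤ A ⊔ B) {s t : G} (hs : s ∈ A)
    (ht : t ∈ B) (hst : Stb (s * t) E) : Stb s ((E ⊔ B) ⊓ A) := by
  intro x
  rw [PRA_proj h hE, PRA_proj h hE]
  constructor
  · rintro ⟨hxA, b, hb, hbE⟩
    refine ⟨PRA_conj' hs hxA, t * b * t⁻¹, PRA_conj' ht hb, ?_⟩
    rw [← PRA_conj h hs ht hxA hb]
    exact (hst _).1 hbE
  · rintro ⟨hxA, b, hb, hbE⟩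
    have hx : x ∈ A := by
      have h1 : x = s⁻¹ * (s * x * s⁻¹) * (s⁻¹)⁻¹ := by group
      rw [h1]
      exact PRA_conj' (inv_mem hs) hxA
    have hc : t⁻¹ * b * (t⁻¹)⁻¹ ∈ B := PRA_conj' (inv_mem ht) hb
    refine ⟨hx, t⁻¹ * b * (t⁻¹)⁻¹, hc, ?_⟩
    rw [hst, PRA_conj h hs ht hx hc]
    have h2 : t * (t⁻¹ * b * (t⁻¹)⁻¹) * t⁻¹ = b := by group
    rw [h2]
    exact hbE

end

theorem PRA : PRA_stmt := by
  intro G _ _ p H₁ H₂ h h₁ hh₁ h₂ hh₂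
  have h' := PRA_symm h
  refine ⟨fun E hE hp => ⟨PRA_eab h hE hp, PRA_eab h' (by rwa [sup_comm] at hE) hp⟩, ?_, ?_, ?_, ?_⟩
  · intro E₁ E₂ hE₁ hE₂ hp₁ hp₂
    have hd := PRA_mono h hE₁ hE₂
    constructor
    · intro x hx y hy
      obtain ⟨a, ha, b, hb, rfl⟩ := (PRA_mem hd).1 hx
      obtain ⟨a', ha', b', hb', rfl⟩ := (PRA_mem hd).1 hy
      rw [PRA_mul4 hd ha' hb, PRA_mul4 hd ha hb', hp₁.1 a ha a' ha', hp₂.1 b hb b' hb']
    · intro x hx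
      obtain ⟨a, ha, b, hb, rfl⟩ := (PRA_mem hd).1 hx
      have h2 : Commute a b := hd.1 a ha b hb
      rw [h2.mul_pow, hp₁.2 a ha, hp₂.2 b hb, mul_one]
  · intro E hE hst
    refine ⟨PRA_stb h hE hh₁ hh₂ hst, PRA_stb h' (by rwa [sup_comm] at hE) hh₂ hh₁ ?_⟩
    rw [← h.1 h₁ hh₁ h₂ hh₂]
    exact hst
  · intro E E₁ E₂ hE hE₁ hE₂
    have hd := PRA_mono h hE₁ hE₂
    have hE' : E ≤ H₂ ⊔ H₁ := by rwa [sup_comm] at hE
    constructor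
    · intro hle
      constructor
      · intro x hx
        obtain ⟨hxA, b, hb, hbE⟩ := (PRA_proj h hE).1 hx
        obtain ⟨a', ha', b', hb', hab⟩ := (PRA_mem hd).1 (hle hbE)
        rw [(PRA_uniq h hxA (hE₁ ha') hb (hE₂ hb') hab).1]
        exact ha'
      · intro x hx
        obtain ⟨hxA, b, hb, hbE⟩ := (PRA_proj h' hE').1 hx
        obtain ⟨a', ha', b', hb', hab⟩ := (PRA_mem hd).1 (hle hbE)
        rw [h'.1 x hxA b hb] at hab
        rw [(PRA_uniq h hb (hE₁ ha') hxA (hE₂ hb') hab).2]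
        exact hb'
    · rintro ⟨hl1, hl2⟩ y hy
      obtain ⟨a, ha, b, hb, rfl⟩ := (PRA_mem h).1 (hE hy)
      refine (PRA_mem hd).2 ⟨a, hl1 ((PRA_proj h hE).2 ⟨ha, b, hb, hy⟩), b,
        hl2 ((PRA_proj h' hE').2 ⟨hb, a, ha, ?_⟩), rfl⟩
      rw [← h.1 a ha b hb]
      exact hy
  · intro E₁ E₂ hE₁ hE₂
    have hd := PRA_mono h hE₁ hE₂
    refine ⟨fun hs₁ hs₂ x => ?_, sup_eq_bot_iff⟩
    constructor
    · intro hx
      obtain ⟨a, ha, b, hb, rfl⟩ := (PRA_mem hd).1 hx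
      rw [PRA_conj h hh₁ hh₂ (hE₁ ha) (hE₂ hb)]
      exact (PRA_mem hd).2 ⟨_, (hs₁ a).1 ha, _, (hs₂ b).1 hb, rfl⟩
    · intro hx
      obtain ⟨a, ha, b, hb, hab⟩ := (PRA_mem hd).1 hx
      have ha1 : h₁⁻¹ * a * (h₁⁻¹)⁻¹ ∈ E₁ := by
        rw [hs₁]
        have : h₁ * (h₁⁻¹ * a * (h₁⁻¹)⁻¹) * h₁⁻¹ = a := by group
        rw [this]
        exact ha
      have hb1 : h₂⁻¹ * b * (h₂⁻¹)⁻¹ ∈ E₂ := by
        rw [hs₂]
        have : h₂ * (h₂⁻¹ * b * (h₂⁻¹)⁻¹) * h₂⁻¹ = b := by group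
        rw [this]
        exact hb
      refine (PRA_mem hd).2 ⟨_, ha1, _, hb1, ?_⟩
      rw [← PRA_conj h (inv_mem hh₁) (inv_mem hh₂) (hE₁ ha) (hE₂ hb), ← hab,
        ← PRA_inv h hh₁ hh₂]
      group

end LEQ
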